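import Mathlib

/-!
# Binary codes of positive rate and positive relative distance
-/

namespace Pool.Agent.Lib.MP_865e4a_co

/-- Few words lie close to a given word. -/
lemma card_ball_le (t : ℕ) (u : Fin (8 * t) → Bool) :
    (Finset.univ.filter fun v : Fin (8 * t) → Bool => hammingDist u v < t).card ≤ 32 ^ t := by
  classical
  -- the sum of `(1/4)^dist` over all words
  have hsum : ∑ v : Fin (8 * t) → Bool, ((1 : ℝ) / 4) ^ hammingDist u v = (5 / 4) ^ (8 * t) := by
    have h1 : ∀ v : Fin (8 * t) → Bool, ((1 : ℝ) / 4) ^ hammingDist u v =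
        ∏ i, (if u i ≠ v i then (1 : ℝ) / 4 else 1) := by
      intro v
      rw [Finset.prod_ite, Finset.prod_const, Finset.prod_const_one, mul_one]
      rfl
    simp_rw [h1]
    have h2 := Finset.prod_univ_sum (fun _ : Fin (8 * t) => (Finset.univ : Finset Bool))
      (fun i b => if u i ≠ b then (1 : ℝ) / 4 else 1)
    rw [Fintype.piFinset_univ] at h2
    rw [← h2]
    have h3 : ∀ i, ∑ b : Bool, (if u i ≠ b then (1 : ℝ) / 4 else 1) = 5 / 4 := by
      intro i
      rw [Fintype.sum_bool]
      cases u i <;> norm_num
    rw [Finset.prod_congr rfl fun i _ => h3 i, Finset.prod_const, Finset.card_univ,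
      Fintype.card_fin]
  have hle : ((Finset.univ.filter fun v : Fin (8 * t) → Bool => hammingDist u v < t).card : ℝ) *
      (1 / 4) ^ t ≤ (5 / 4) ^ (8 * t) := by
    rw [← hsum, ← nsmul_eq_mul, ← Finset.sum_const]
    refine (Finset.sum_le_sum fun v hv => ?_).trans
      (Finset.sum_le_sum_of_subset_of_nonneg (Finset.filter_subset _ _) fun v _ _ => by positivity)
    rw [Finset.mem_filter] at hv
    exact pow_le_pow_of_le_one (by norm_num) (by norm_num) hv.2.le
  have h4 : ((5 : ℝ) / 4) ^ (8 * t) = (390625 / 65536) ^ t := by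
    rw [pow_mul]; norm_num
  rw [h4] at hle
  have h5 : ((Finset.univ.filter fun v : Fin (8 * t) → Bool => hammingDist u v < t).card : ℝ) ≤
      32 ^ t := by
    have h6 : ((Finset.univ.filter fun v : Fin (8 * t) → Bool => hammingDist u v < t).card : ℝ) =
        ((Finset.univ.filter fun v : Fin (8 * t) → Bool => hammingDist u v < t).card : ℝ) *
      (1 / 4) ^ t * 4 ^ t := by
      rw [mul_assoc, ← mul_pow]; norm_num
    rw [h6]
    calc _ ≤ ((390625 : ℝ) / 65536) ^ t * 4 ^ t :=
          mul_le_mul_of_nonneg_right hle (by positivity)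
      _ = (390625 / 65536 * 4) ^ t := by rw [mul_pow]
      _ ≤ 32 ^ t := pow_le_pow_left₀ (by norm_num) (by norm_num) _
  exact_mod_cast h5

/-- There is a binary code of length `8t`, size at least `8^t` and minimum distance at least `t`. -/
theorem exists_code (t : ℕ) : ∃ C : Finset (Fin (8 * t) → Bool), 8 ^ t ≤ C.card ∧
    ∀ u ∈ C, ∀ v ∈ C, u ≠ v → t ≤ hammingDist u v := by
  classical
  let P : Finset (Fin (8 * t) → Bool) → Prop :=
    fun C => ∀ u ∈ C, ∀ v ∈ C, u ≠ v → t ≤ hammingDist u v
  obtain ⟨C, hC, hmax⟩ := (Finset.univ.filter P).exists_max_image Finset.card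
    ⟨∅, Finset.mem_filter.2 ⟨Finset.mem_univ _, fun u hu => absurd hu (Finset.notMem_empty u)⟩⟩
  rw [Finset.mem_filter] at hC
  have hCP := hC.2
  rcases Nat.eq_zero_or_pos t with ht | ht
  · subst ht
    refine ⟨{fun _ => true}, by simp, fun u _ v _ _ => Nat.zero_le _⟩
  refine ⟨C, ?_, hCP⟩
  -- every word is close to a codeword
  have hcover : (Finset.univ : Finset (Fin (8 * t) → Bool)) ⊆
      C.biUnion fun u => Finset.univ.filter fun v => hammingDist u v < t := by
    intro v _
    by_contra hv
    rw [Finset.mem_biUnion] at hv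
    push Not at hv
    have hv' : ∀ u ∈ C, t ≤ hammingDist u v := by
      intro u hu
      have := hv u hu
      rw [Finset.mem_filter] at this
      push Not at this
      exact this (Finset.mem_univ _)
    have hvC : v ∉ C := by
      intro h
      have := hv' v h
      rw [hammingDist_self] at this
      omega
    have hins : P (insert v C) := by
      intro a ha b hb hab
      rw [Finset.mem_insert] at ha hb
      rcases ha with rfl | ha
      · rcases hb with rfl | hb
        · exact absurd rfl hab
        · rw [hammingDist_comm]; exact hv' b hb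
      · rcases hb with rfl | hb
        · exact hv' a ha
        · exact hCP a ha b hb hab
    have := hmax (insert v C) (Finset.mem_filter.2 ⟨Finset.mem_univ _, hins⟩)
    rw [Finset.card_insert_of_notMem hvC] at this
    omega
  have h1 := Finset.card_le_card hcover
  have h2 : (C.biUnion fun u => Finset.univ.filter fun v => hammingDist u v < t).card ≤
      C.card * 32 ^ t := by
    refine Finset.card_biUnion_le.trans ?_
    refine (Finset.sum_le_sum fun u _ => card_ball_le t u).trans ?_
    rw [Finset.sum_const, smul_eq_mul]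
  have h3 : (Finset.univ : Finset (Fin (8 * t) → Bool)).card = 8 ^ t * 32 ^ t := by
    rw [Finset.card_univ, Fintype.card_fun, Fintype.card_bool, Fintype.card_fin, ← mul_pow,
      pow_mul]
    norm_num
  rw [h3] at h1
  exact Nat.le_of_mul_le_mul_right (h1.trans h2) (by positivity)

end Pool.Agent.Lib.MP_865e4a_co
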