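import Mathlib

/-!
# Edge colourings in which every colour is everywhere dense
-/

namespace Pool.Agent.Lib.MP_865e4a_co

/-- In the colouring `θ` of the pairs of `Fin k`, each colour has density more than `1/(4Q)` between
any two disjoint sets of size at least `m`. -/
def Rich (k Q m : ℕ) (θ : Sym2 (Fin k) → Fin Q) : Prop :=
  ∀ (q : Fin Q) (A C : Finset (Fin k)), Disjoint A C → m ≤ A.card → m ≤ C.card →
    A.card * C.card < 4 * Q * ((A ×ˢ C).filter fun p => θ s(p.1, p.2) = q).card

section Count

variable {k Q : ℕ}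

/-- The number of colourings in which the colour `q` is rare on `E`. -/
lemma card_rare_le (hQ : 0 < Q) (q : Fin Q) (E : Finset (Sym2 (Fin k))) :
    ((Finset.univ.filter fun θ : Sym2 (Fin k) → Fin Q =>
      4 * Q * (E.filter fun e => θ e = q).card ≤ E.card).card : ℝ) ≤
      (Q : ℝ) ^ Fintype.card (Sym2 (Fin k)) * (1 - 1 / (4 * Q)) ^ E.card := by
  classical
  have hQ1 : (1 : ℝ) ≤ Q := by exact_mod_cast hQ
  set n : ℕ := 4 * Q - 1 with hn
  have hn1 : (n : ℝ) = 4 * Q - 1 := by
    rw [hn, Nat.cast_sub (by omega)]; push_cast; ring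
  have hnpos : (0 : ℝ) < n := by rw [hn1]; linarith
  set y : ℝ := 1 + 1 / n with hy
  have hy1 : 1 ≤ y := by rw [hy]; have : 0 < 1 / (n : ℝ) := by positivity
                         linarith
  have hy0 : 0 < y := by linarith
  have hyn : 2 ≤ y ^ n := by
    have h1 := one_add_mul_le_pow (a := 1 / (n : ℝ)) (by
      have : 0 < 1 / (n : ℝ) := by positivity
      linarith) n
    have h2 : 1 + (n : ℝ) * (1 / n) = 2 := by field_simp; norm_num
    rw [h2] at h1
    exact h1
  set x : ℝ := (y ^ n)⁻¹ with hx
  have hx0 : 0 < x := by positivity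
  have hx1 : x ≤ 1 / 2 := by
    rw [hx, inv_le_comm₀ (by positivity) (by norm_num)]
    simpa using hyn
  have hxy : x * y ^ n = 1 := by rw [hx]; field_simp
  -- the weight of a colouring
  let ω : Fin Q → ℝ := fun q' => if q' = q then x else y
  have hω0 : ∀ q', 0 ≤ ω q' := by
    intro q'
    simp only [ω]
    split_ifs
    · exact hx0.le
    · exact hy0.le
  let W : (Sym2 (Fin k) → Fin Q) → ℝ := fun θ => ∏ e, (if e ∈ E then ω (θ e) else 1)
  have hW0 : ∀ θ, 0 ≤ W θ := by
    intro θ
    refine Finset.prod_nonneg fun e _ => ?_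
    split_ifs
    · exact hω0 _
    · exact zero_le_one
  -- rare colourings have weight at least one
  have hW1 : ∀ θ : Sym2 (Fin k) → Fin Q, 4 * Q * (E.filter fun e => θ e = q).card ≤ E.card →
      1 ≤ W θ := by
    intro θ hθ
    have h1 : W θ = x ^ (E.filter fun e => θ e = q).card *
        y ^ (E.filter fun e => ¬ θ e = q).card := by
      simp only [W, ω]
      rw [Finset.prod_ite_mem, Finset.univ_inter, Finset.prod_ite, Finset.prod_const,
        Finset.prod_const]
    have h2 := Finset.card_filter_add_card_filter_not (s := E) (fun e => θ e = q)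
    set h := (E.filter fun e => θ e = q).card with hh
    set h' := (E.filter fun e => ¬ θ e = q).card with hh'
    have h3 : n * h ≤ h' := by
      have : 4 * Q * h = n * h + h := by
        rw [hn, ← Nat.succ_mul]
        congr 1
        omega
      omega
    rw [h1]
    calc (1 : ℝ) = (x * y ^ n) ^ h := by rw [hxy, one_pow]
      _ = x ^ h * y ^ (n * h) := by rw [mul_pow, ← pow_mul]
      _ ≤ x ^ h * y ^ h' := by
          refine mul_le_mul_of_nonneg_left (pow_le_pow_right₀ hy1 h3) (by positivity)
  -- the total weight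
  have hsum : ∑ θ, W θ = (x + (Q - 1) * y) ^ E.card *
      (Q : ℝ) ^ (Fintype.card (Sym2 (Fin k)) - E.card) := by
    have h2 := Finset.prod_univ_sum (fun _ : Sym2 (Fin k) => (Finset.univ : Finset (Fin Q)))
      (fun e b => if e ∈ E then ω b else 1)
    rw [Fintype.piFinset_univ] at h2
    simp only [W]
    rw [← h2]
    have h3 : ∀ e : Sym2 (Fin k), ∑ b : Fin Q, (if e ∈ E then ω b else 1) =
        if e ∈ E then x + (Q - 1) * y else (Q : ℝ) := by
      intro e
      split_ifs with he
      · simp only [ω]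
        rw [Finset.sum_ite, Finset.sum_const, Finset.sum_const, Finset.filter_eq',
          if_pos (Finset.mem_univ q), Finset.card_singleton, one_smul, Finset.filter_ne',
          Finset.card_erase_of_mem (Finset.mem_univ q), Finset.card_univ, Fintype.card_fin,
          nsmul_eq_mul, Nat.cast_sub hQ]
        simp
      · simp
    rw [Finset.prod_congr rfl fun e _ => h3 e, Finset.prod_ite, Finset.prod_const,
      Finset.prod_const]
    have h4 : (Finset.univ.filter fun e : Sym2 (Fin k) => e ∈ E) = E := by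
      ext e; simp
    have h5 : (Finset.univ.filter fun e : Sym2 (Fin k) => ¬ e ∈ E) = Eᶜ := by
      ext e; simp
    rw [h4, h5, Finset.card_compl]
  have hle : (x + (Q - 1) * y) ≤ Q - 1 / 4 := by
    have h1 : ((Q : ℝ) - 1) * y = Q - 1 + (Q - 1) / n := by rw [hy]; ring
    have h2 : ((Q : ℝ) - 1) / n ≤ 1 / 4 := by
      rw [div_le_iff₀ hnpos, hn1]; linarith
    rw [h1]; linarith
  have hpos : 0 ≤ x + ((Q : ℝ) - 1) * y := by
    have : 0 ≤ ((Q : ℝ) - 1) * y := mul_nonneg (by linarith) hy0.le
    linarith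
  have hEc : E.card ≤ Fintype.card (Sym2 (Fin k)) := Finset.card_le_univ E
  calc ((Finset.univ.filter fun θ : Sym2 (Fin k) → Fin Q =>
      4 * Q * (E.filter fun e => θ e = q).card ≤ E.card).card : ℝ)
      = ∑ θ ∈ Finset.univ.filter fun θ : Sym2 (Fin k) → Fin Q =>
          4 * Q * (E.filter fun e => θ e = q).card ≤ E.card, (1 : ℝ) := by simp
    _ ≤ ∑ θ ∈ Finset.univ.filter fun θ : Sym2 (Fin k) → Fin Q =>
          4 * Q * (E.filter fun e => θ e = q).card ≤ E.card, W θ := by
        refine Finset.sum_le_sum fun θ hθ => hW1 θ (Finset.mem_filter.1 hθ).2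
    _ ≤ ∑ θ, W θ :=
        Finset.sum_le_sum_of_subset_of_nonneg (Finset.filter_subset _ _) fun θ _ _ => hW0 θ
    _ = (x + (Q - 1) * y) ^ E.card * (Q : ℝ) ^ (Fintype.card (Sym2 (Fin k)) - E.card) := hsum
    _ ≤ (Q - 1 / 4) ^ E.card * (Q : ℝ) ^ (Fintype.card (Sym2 (Fin k)) - E.card) := by
        refine mul_le_mul_of_nonneg_right (pow_le_pow_left₀ hpos hle _) (by positivity)
    _ = (Q : ℝ) ^ Fintype.card (Sym2 (Fin k)) * (1 - 1 / (4 * Q)) ^ E.card := by
        have h1 : (Q : ℝ) ^ Fintype.card (Sym2 (Fin k)) =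
            (Q : ℝ) ^ E.card * (Q : ℝ) ^ (Fintype.card (Sym2 (Fin k)) - E.card) := by
          rw [← pow_add]; congr 1; omega
        have h2 : ((Q : ℝ) - 1 / 4) = Q * (1 - 1 / (4 * Q)) := by
          field_simp
        rw [h1, h2, mul_pow]
        ring

/-- Rich colourings exist. -/
theorem exists_rich (hQ : 0 < Q) (m : ℕ)
    (h : (4 : ℝ) ^ k * Q * (1 - 1 / (4 * Q)) ^ (m * m) < 1) :
    ∃ θ : Sym2 (Fin k) → Fin Q, Rich k Q m θ := by
  classical
  by_contra hcon
  push Not at hcon
  have hQ1 : (1 : ℝ) ≤ Q := by exact_mod_cast hQ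
  have hρ0 : (0 : ℝ) ≤ 1 - 1 / (4 * Q) := by
    have : 1 / (4 * (Q : ℝ)) ≤ 1 := by
      rw [div_le_one (by positivity)]; linarith
    linarith
  have hρ1 : (1 : ℝ) - 1 / (4 * Q) ≤ 1 := by
    have : 0 ≤ 1 / (4 * (Q : ℝ)) := by positivity
    linarith
  let E : Finset (Fin k) × Finset (Fin k) → Finset (Sym2 (Fin k)) := fun p =>
    (p.1 ×ˢ p.2).image fun x => s(x.1, x.2)
  let I : Finset (Fin Q × (Finset (Fin k) × Finset (Fin k))) :=
    Finset.univ.filter fun z => m * m ≤ (E z.2).card
  let Bad : Fin Q × (Finset (Fin k) × Finset (Fin k)) → Finset (Sym2 (Fin k) → Fin Q) := fun z =>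
    Finset.univ.filter fun θ : Sym2 (Fin k) → Fin Q =>
      4 * Q * ((E z.2).filter fun e => θ e = z.1).card ≤ (E z.2).card
  have hcover : (Finset.univ : Finset (Sym2 (Fin k) → Fin Q)) ⊆ I.biUnion Bad := by
    intro θ _
    have h1 := hcon θ
    unfold Rich at h1
    push Not at h1
    obtain ⟨q, A, C, hAC, hA, hC, hle⟩ := h1
    have hinj : Set.InjOn (fun x : Fin k × Fin k => s(x.1, x.2)) (A ×ˢ C : Finset _) := by
      rintro ⟨a, c⟩ h1 ⟨a', c'⟩ h2 h3
      rw [Finset.mem_coe, Finset.mem_product] at h1 h2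
      simp only [Sym2.eq_iff] at h3
      rcases h3 with ⟨rfl, rfl⟩ | ⟨rfl, rfl⟩
      · rfl
      · exfalso
        exact Finset.disjoint_left.1 hAC h1.1 h2.2
    have hEc : (E (A, C)).card = A.card * C.card := by
      simp only [E]
      rw [Finset.card_image_of_injOn hinj, Finset.card_product]
    have hEf : ((E (A, C)).filter fun e => θ e = q).card =
        ((A ×ˢ C).filter fun p => θ s(p.1, p.2) = q).card := by
      simp only [E]
      rw [Finset.filter_image, Finset.card_image_of_injOn]
      refine hinj.mono ?_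
      intro x hx
      rw [Finset.mem_coe, Finset.mem_filter] at hx
      exact hx.1
    rw [Finset.mem_biUnion]
    refine ⟨(q, (A, C)), ?_, ?_⟩
    · simp only [I, Finset.mem_filter, Finset.mem_univ, true_and]
      rw [hEc]
      exact Nat.mul_le_mul hA hC
    · simp only [Bad, Finset.mem_filter, Finset.mem_univ, true_and]
      rw [hEf, hEc]
      exact hle
  have h1 : ((Finset.univ : Finset (Sym2 (Fin k) → Fin Q)).card : ℝ) ≤
      (4 : ℝ) ^ k * Q * ((Q : ℝ) ^ Fintype.card (Sym2 (Fin k)) *
        (1 - 1 / (4 * Q)) ^ (m * m)) := by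
    calc ((Finset.univ : Finset (Sym2 (Fin k) → Fin Q)).card : ℝ)
        ≤ ((I.biUnion Bad).card : ℝ) := by exact_mod_cast Finset.card_le_card hcover
      _ ≤ ∑ z ∈ I, ((Bad z).card : ℝ) := by exact_mod_cast Finset.card_biUnion_le
      _ ≤ ∑ z ∈ I, ((Q : ℝ) ^ Fintype.card (Sym2 (Fin k)) *
            (1 - 1 / (4 * Q)) ^ (m * m)) := by
          refine Finset.sum_le_sum fun z hz => ?_
          refine (card_rare_le hQ z.1 (E z.2)).trans ?_
          refine mul_le_mul_of_nonneg_left ?_ (by positivity)
          exact pow_le_pow_of_le_one hρ0 hρ1 (Finset.mem_filter.1 hz).2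
      _ = (I.card : ℝ) * ((Q : ℝ) ^ Fintype.card (Sym2 (Fin k)) *
            (1 - 1 / (4 * Q)) ^ (m * m)) := by
          rw [Finset.sum_const, nsmul_eq_mul]
      _ ≤ (4 : ℝ) ^ k * Q * ((Q : ℝ) ^ Fintype.card (Sym2 (Fin k)) *
            (1 - 1 / (4 * Q)) ^ (m * m)) := by
          refine mul_le_mul_of_nonneg_right ?_ (by positivity)
          have h2 : I.card ≤ 4 ^ k * Q := by
            refine (Finset.card_filter_le _ _).trans ?_
            rw [Finset.card_univ]
            simp only [Fintype.card_prod, Fintype.card_fin, Fintype.card_finset]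
            apply le_of_eq
            have : (4 : ℕ) ^ k = 2 ^ k * 2 ^ k := by rw [← mul_pow]; norm_num
            rw [this]; ring
          exact_mod_cast h2
  rw [Finset.card_univ, Fintype.card_fun, Fintype.card_fin] at h1
  push_cast at h1
  have h3 : (0 : ℝ) < (Q : ℝ) ^ Fintype.card (Sym2 (Fin k)) := by positivity
  have h4 : (4 : ℝ) ^ k * Q * ((Q : ℝ) ^ Fintype.card (Sym2 (Fin k)) *
        (1 - 1 / (4 * Q)) ^ (m * m)) =
      (Q : ℝ) ^ Fintype.card (Sym2 (Fin k)) *
        ((4 : ℝ) ^ k * Q * (1 - 1 / (4 * Q)) ^ (m * m)) := by ring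
  rw [h4] at h1
  have h5 := mul_lt_mul_of_pos_left h h3
  rw [mul_one] at h5
  linarith

end Count

/-- The set sizes needed in the greedy embedding. -/
def need (Q m n : ℕ) : ℕ := (n + 1) * m * (4 * Q) ^ n

/-- In a rich colouring one can find a transversal of large disjoint sets with all pairs of
prescribed colours. -/
theorem exists_transversal {k Q m : ℕ} (hQ : 0 < Q) (hm : 0 < m) {θ : Sym2 (Fin k) → Fin Q}
    (hθ : Rich k Q m θ) (n : ℕ) : ∀ (U : Fin n → Finset (Fin k)),
    (∀ i j, i ≠ j → Disjoint (U i) (U j)) → (∀ i, need Q m n ≤ (U i).card) →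
    ∀ τ : Fin n → Fin n → Fin Q, ∃ v : Fin n → Fin k, (∀ i, v i ∈ U i) ∧
      ∀ i j, i < j → θ s(v i, v j) = τ i j := by
  classical
  induction n with
  | zero => exact fun U _ _ τ => ⟨fun i => i.elim0, fun i => i.elim0, fun i => i.elim0⟩
  | succ n ih =>
    intro U hdisj hcard τ
    have h4Q : 1 ≤ 4 * Q := by omega
    have hneed1 : 4 * Q * need Q m n ≤ need Q m (n + 1) := by
      unfold need
      calc 4 * Q * ((n + 1) * m * (4 * Q) ^ n) = (n + 1) * (m * (4 * Q) ^ (n + 1)) := by
            rw [pow_succ]; ring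
        _ ≤ (n + 1 + 1) * (m * (4 * Q) ^ (n + 1)) := Nat.mul_le_mul_right _ (by omega)
        _ = (n + 1 + 1) * m * (4 * Q) ^ (n + 1) := by ring
    have hneed2 : (n + 2) * m ≤ need Q m (n + 1) := by
      unfold need
      exact Nat.le_mul_of_pos_right _ (pow_pos h4Q _)
    -- the neighbourhoods
    let N : Fin k → Fin n → Finset (Fin k) := fun v j =>
      (U j.succ).filter fun c => θ s(v, c) = τ 0 j.succ
    let bad : Fin n → Finset (Fin k) := fun j =>
      (U 0).filter fun v => 4 * Q * (N v j).card ≤ (U j.succ).card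
    have hbad : ∀ j, (bad j).card < m := by
      intro j
      by_contra hcon
      push Not at hcon
      have hUj : m ≤ (U j.succ).card := by
        have := hcard j.succ
        have h1 : m ≤ (n + 2) * m := Nat.le_mul_of_pos_left _ (by omega)
        omega
      have hd : Disjoint (bad j) (U j.succ) :=
        Finset.disjoint_of_subset_left (Finset.filter_subset _ _)
          (hdisj 0 j.succ (Fin.succ_ne_zero j).symm)
      have h1 := hθ (τ 0 j.succ) (bad j) (U j.succ) hd hcon hUj
      have h2 : (((bad j) ×ˢ (U j.succ)).filter fun p => θ s(p.1, p.2) = τ 0 j.succ).card =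
          ∑ a ∈ bad j, (N a j).card := by
        rw [Finset.card_filter, Finset.sum_product]
        refine Finset.sum_congr rfl fun a _ => ?_
        simp only [N]
        rw [Finset.card_filter]
      rw [h2, Finset.mul_sum] at h1
      have h3 : ∑ a ∈ bad j, 4 * Q * (N a j).card ≤ ∑ a ∈ bad j, (U j.succ).card :=
        Finset.sum_le_sum fun a ha => (Finset.mem_filter.1 ha).2
      rw [Finset.sum_const, smul_eq_mul] at h3
      omega
    have hex : ∃ v ∈ U 0, ∀ j, v ∉ bad j := by
      by_contra hcon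
      push Not at hcon
      have hsub : U 0 ⊆ Finset.univ.biUnion bad := by
        intro v hv
        obtain ⟨j, hj⟩ := hcon v hv
        exact Finset.mem_biUnion.2 ⟨j, Finset.mem_univ _, hj⟩
      have h1 := (Finset.card_le_card hsub).trans Finset.card_biUnion_le
      have h2 : ∑ j, (bad j).card ≤ ∑ _j : Fin n, m :=
        Finset.sum_le_sum fun j _ => (hbad j).le
      rw [Finset.sum_const, Finset.card_univ, Fintype.card_fin, smul_eq_mul] at h2
      have h3 := hcard 0
      have h4 : n * m < (n + 2) * m := Nat.mul_lt_mul_of_pos_right (by omega) hm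
      omega
    obtain ⟨v₀, hv₀, hv₀bad⟩ := hex
    have hN : ∀ j, (U j.succ).card < 4 * Q * (N v₀ j).card := by
      intro j
      by_contra hcon
      push Not at hcon
      exact hv₀bad j (Finset.mem_filter.2 ⟨hv₀, hcon⟩)
    obtain ⟨v, hv, hcol⟩ := ih (fun j => N v₀ j)
      (fun i j hij => Finset.disjoint_of_subset_left (Finset.filter_subset _ _)
        (Finset.disjoint_of_subset_right (Finset.filter_subset _ _)
          (hdisj i.succ j.succ (fun h => hij (Fin.succ_injective _ h)))))
      (fun j => by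
        have h1 := hN j
        have h2 := hcard j.succ
        have h3 : 4 * Q * need Q m n ≤ 4 * Q * (N v₀ j).card := by omega
        exact Nat.le_of_mul_le_mul_left h3 (by omega))
      (fun i j => τ i.succ j.succ)
    refine ⟨Fin.cons v₀ v, ?_, ?_⟩
    · intro i
      refine Fin.cases ?_ (fun j => ?_) i
      · simpa using hv₀
      · simpa using (Finset.mem_filter.1 (hv j)).1
    · intro i j hij
      revert hij
      refine Fin.cases ?_ (fun i => ?_) i
      · refine Fin.cases ?_ (fun j => ?_) j
        · intro h; exact absurd h (lt_irrefl _)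
        · intro _
          simpa using (Finset.mem_filter.1 (hv j)).2
      · refine Fin.cases ?_ (fun j => ?_) j
        · intro h; exact absurd h (Fin.not_lt_zero _)
        · intro h
          simpa using hcol i j (Fin.succ_lt_succ_iff.1 h)

end Pool.Agent.Lib.MP_865e4a_co
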