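import Mathlib

/-!
# Edge-ordered graphs and semisaturation: definitions
-/

namespace Pool.Agent.Lib.MP_865e4a_co

/-- An edge-ordered graph on the vertex set `V`: a simple graph with a real labelling of its edges
that is injective on the edge set.  Only the relative order of the labels matters below. -/
structure EdgeOrderedGraph (V : Type) where
  /-- the underlying simple graph -/
  graph : SimpleGraph V
  /-- the labels; only the values on edges of `graph` matter -/
  label : Sym2 V → ℝ
  label_injOn : Set.InjOn label graph.edgeSet

open Classical in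
/-- The edge-ordered graph obtained from `H` by adding the non-edge `uv` with the new label `t`. -/
noncomputable def EdgeOrderedGraph.addEdge {V : Type} (H : EdgeOrderedGraph V) (u v : V) (t : ℝ)
    (ht : ∀ e ∈ H.graph.edgeSet, H.label e ≠ t) : EdgeOrderedGraph V where
  graph := H.graph ⊔ SimpleGraph.edge u v
  label e := if e = s(u, v) then t else H.label e
  label_injOn := by
    intro e he e' he' h
    have key : ∀ e ∈ (H.graph ⊔ SimpleGraph.edge u v).edgeSet, e ≠ s(u, v) →
        e ∈ H.graph.edgeSet := by
      intro e he hne
      rw [SimpleGraph.edgeSet_sup] at he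
      rcases he with he | he
      · exact he
      · exfalso
        rw [SimpleGraph.edgeSet_edge_of_ne] at he
        · exact hne he
        · intro huv
          subst huv
          simp at he
    dsimp only at h
    by_cases h1 : e = s(u, v)
    · by_cases h2 : e' = s(u, v)
      · rw [h1, h2]
      · exfalso
        rw [if_pos h1, if_neg h2] at h
        exact ht e' (key e' he' h2) h.symm
    · by_cases h2 : e' = s(u, v)
      · exfalso
        rw [if_neg h1, if_pos h2] at h
        exact ht e (key e he h1) h
      · rw [if_neg h1, if_neg h2] at h
        exact H.label_injOn (key e he h1) (key e' he' h2) h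

/-- `IsCopy G H φ`: the injective vertex map `φ` embeds `G` into `H` as a subgraph and respects the
orders of the edges. -/
def IsCopy {W V : Type} (G : EdgeOrderedGraph W) (H : EdgeOrderedGraph V) (φ : W → V) : Prop :=
  Function.Injective φ ∧ (∀ a b, G.graph.Adj a b → H.graph.Adj (φ a) (φ b)) ∧
    ∀ e ∈ G.graph.edgeSet, ∀ e' ∈ G.graph.edgeSet,
      (G.label e < G.label e' ↔ H.label (e.map φ) < H.label (e'.map φ))

/-- `H` *e-semisaturates* `G`: whenever a non-edge `uv` of `H` is added with any new label, the
resulting edge-ordered graph contains a copy of `G` that uses the edge `uv`. -/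
def ESemisaturates {W V : Type} (H : EdgeOrderedGraph V) (G : EdgeOrderedGraph W) : Prop :=
  ∀ (u v : V), u ≠ v → ¬ H.graph.Adj u v →
    ∀ (t : ℝ) (ht : ∀ e ∈ H.graph.edgeSet, H.label e ≠ t),
      ∃ φ : W → V, IsCopy G (H.addEdge u v t ht) φ ∧
        ∃ a b, G.graph.Adj a b ∧ s(φ a, φ b) = s(u, v)

/-- The semisaturation function `ssat_e(n, G)`: the smallest number of edges of an edge-ordered
graph on `n` vertices that e-semisaturates `G`. -/
noncomputable def ssat {W : Type} (n : ℕ) (G : EdgeOrderedGraph W) : ℕ :=
  sInf {m : ℕ | ∃ H : EdgeOrderedGraph (Fin n), ESemisaturates H G ∧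
    H.graph.edgeSet.ncard = m}

end Pool.Agent.Lib.MP_865e4a_co
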