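import Mathlib
import Pool.Agent.Lib.MP_865e4a_co.Code

/-!
# Large families of functions that are pairwise well separated at some scale
-/

namespace Pool.Agent.Lib.MP_865e4a_co

/-- The exponent in the size of the family. -/
def expo (B : ℕ) : ℕ → ℕ
  | 0 => 0
  | s + 1 => B ^ s + B * expo B s

lemma mul_expo (B s : ℕ) : B * expo B s = s * B ^ s := by
  induction s with
  | zero => simp [expo]
  | succ s ih =>
    rw [expo, mul_add, ih, pow_succ]
    ring

/-- The functions `f` and `f'` are separated on `V` at some scale `j < s`: inside one common cell,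
all pairs of next digits occur at least `t` times. -/
def Sep {κ : Type} [DecidableEq κ] (B s t : ℕ) (V : Finset κ) (f f' : κ → ℕ) : Prop :=
  ∃ j, j < s ∧ ∃ w, ∀ a < B, ∀ a' < B,
    t ≤ (V.filter fun v => f v / B ^ j = w * B + a ∧ f' v / B ^ j = w * B + a').card

/-- Select a digit. -/
def dig {B : ℕ} (b : Bool) (q : Fin B × Fin B) : Fin B := if b then q.2 else q.1

lemma sum_dig (B : ℕ) (b : Bool) (a : Fin B) :
    ∑ q : Fin B × Fin B, (if dig b q = a then 1 else 0) = B := by
  rw [Fintype.sum_prod_type]
  cases b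
  · simp [dig]
  · simp [dig]

theorem exists_family (B t : ℕ) (hB : 0 < B) (s : ℕ) : ∀ {κ : Type} [DecidableEq κ]
    (V : Finset κ), V.card = B ^ (s + 1) * (8 * t) →
    ∃ F : Fin (8 ^ (t * expo B s)) → κ → ℕ, (∀ i v, F i v < B ^ s) ∧
      ∀ i i', i ≠ i' → Sep B s t V (F i) (F i') := by
  induction s with
  | zero =>
    intro κ _ V _
    refine ⟨fun _ _ => 0, fun i v => by simp, fun i i' h => ?_⟩
    exfalso
    apply h
    apply Fin.ext
    have h1 := i.2
    have h2 := i'.2
    simp only [expo, mul_zero, pow_zero] at h1 h2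
    omega
  | succ s ih =>
    intro κ _ V hV
    classical
    obtain ⟨C, hC, hdist⟩ := exists_code t
    -- coordinates on `V`
    have hcard : Fintype.card V =
        Fintype.card (Fin (B ^ s) × Fin (8 * t) × Fin B × Fin B) := by
      rw [Fintype.card_coe, hV]
      simp only [Fintype.card_prod, Fintype.card_fin]
      ring
    obtain ⟨e⟩ := Fintype.card_eq.1 hcard
    let c : (Fin (B ^ s) → Fin (8 * t) → Bool) → κ → Fin B := fun u v =>
      if h : v ∈ V then dig (u (e ⟨v, h⟩).1 (e ⟨v, h⟩).2.1) (e ⟨v, h⟩).2.2 else ⟨0, hB⟩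
    have hc : ∀ u v (h : v ∈ V),
        c u v = dig (u (e ⟨v, h⟩).1 (e ⟨v, h⟩).2.1) (e ⟨v, h⟩).2.2 := by
      intro u v h
      simp only [c, dif_pos h]
    let cell : (Fin (B ^ s) → Fin (8 * t) → Bool) → Fin B → Finset κ := fun u a =>
      V.filter fun v => c u v = a
    have hcell : ∀ u a, (cell u a).card = B ^ (s + 1) * (8 * t) := by
      intro u a
      have h1 : (cell u a).card = ∑ v ∈ V, if c u v = a then 1 else 0 := by
        rw [Finset.card_filter]
      rw [h1, ← Finset.sum_coe_sort V]
      have h2 : ∑ v : V, (if c u v = a then 1 else 0) =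
          ∑ τ : Fin (B ^ s) × Fin (8 * t) × Fin B × Fin B,
            if dig (u τ.1 τ.2.1) τ.2.2 = a then 1 else 0 := by
        refine Fintype.sum_equiv e _ _ fun v => ?_
        rw [hc u v v.2]
      rw [h2, Fintype.sum_prod_type]
      simp_rw [Fintype.sum_prod_type (α₁ := Fin (8 * t)), sum_dig]
      simp only [Finset.sum_const, Finset.card_univ, Fintype.card_fin, smul_eq_mul]
      ring
    choose F' hF'lt hF'sep using fun u a => ih (cell u a) (hcell u a)
    -- the index set
    have hJ : Fintype.card (Fin (8 ^ (t * expo B (s + 1)))) ≤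
        Fintype.card ((Fin (B ^ s) → C) × (Fin B → Fin (8 ^ (t * expo B s)))) := by
      simp only [Fintype.card_prod, Fintype.card_fin, Fintype.card_fun, Fintype.card_coe]
      calc 8 ^ (t * expo B (s + 1)) = (8 ^ t) ^ B ^ s * (8 ^ (t * expo B s)) ^ B := by
            rw [expo, ← pow_mul, ← pow_mul, ← pow_add]
            congr 1
            ring
        _ ≤ C.card ^ B ^ s * (8 ^ (t * expo B s)) ^ B :=
            Nat.mul_le_mul_right _ (Nat.pow_le_pow_left hC _)
    obtain ⟨emb⟩ := Function.Embedding.nonempty_of_card_le hJ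
    let U : Fin (8 ^ (t * expo B (s + 1))) → Fin (B ^ s) → Fin (8 * t) → Bool :=
      fun i g => ((emb i).1 g : Fin (8 * t) → Bool)
    let F : Fin (8 ^ (t * expo B (s + 1))) → κ → ℕ := fun i v =>
      (c (U i) v : ℕ) * B ^ s + F' (U i) (c (U i) v) ((emb i).2 (c (U i) v)) v
    have hpow : 0 < B ^ s := pow_pos hB s
    refine ⟨F, fun i v => ?_, fun i i' hii' => ?_⟩
    · have h1 := hF'lt (U i) (c (U i) v) ((emb i).2 (c (U i) v)) v
      have h2 : (c (U i) v : ℕ) + 1 ≤ B := (c (U i) v).2
      calc F i v < (c (U i) v : ℕ) * B ^ s + B ^ s := Nat.add_lt_add_left h1 _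
        _ = ((c (U i) v : ℕ) + 1) * B ^ s := by ring
        _ ≤ B * B ^ s := Nat.mul_le_mul_right _ h2
        _ = B ^ (s + 1) := by rw [pow_succ]; ring
    · by_cases hu : (emb i).1 = (emb i').1
      · -- same top digits
        have hy : (emb i).2 ≠ (emb i').2 := by
          intro hy
          exact hii' (emb.injective (Prod.ext hu hy))
        obtain ⟨a, ha⟩ := Function.ne_iff.1 hy
        have hUU : U i' = U i := by
          funext g
          simp only [U, hu]
        obtain ⟨j, hj, w, hw⟩ := hF'sep (U i) a ((emb i).2 a) ((emb i').2 a) ha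
        refine ⟨j, by omega, (a : ℕ) * B ^ (s - 1 - j) + w, fun a₁ ha₁ a₂ ha₂ => ?_⟩
        refine (hw a₁ ha₁ a₂ ha₂).trans (Finset.card_le_card ?_)
        intro v hv
        rw [Finset.mem_filter] at hv ⊢
        obtain ⟨hv1, hv2, hv3⟩ := hv
        rw [Finset.mem_filter] at hv1
        obtain ⟨hvV, hva⟩ := hv1
        have hdiv : ∀ x, ((a : ℕ) * B ^ s + x) / B ^ j =
            (a : ℕ) * B ^ (s - 1 - j) * B + x / B ^ j := by
          intro x
          have h1 : B ^ s = B ^ j * (B ^ (s - 1 - j) * B) := by
            rw [← pow_succ, ← pow_add]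
            congr 1
            omega
          have h2 : (a : ℕ) * B ^ s + x = B ^ j * ((a : ℕ) * B ^ (s - 1 - j) * B) + x := by
            rw [h1]; ring
          rw [h2, Nat.mul_add_div (pow_pos hB j)]
        refine ⟨hvV, ?_, ?_⟩
        · simp only [F, hva, hdiv, hv2]
          ring
        · simp only [F, hUU, hva, hdiv, hv3]
          ring
      · -- different top digits
        obtain ⟨g, hg⟩ := Function.ne_iff.1 hu
        have hg' : U i g ≠ U i' g := fun h => hg (Subtype.ext h)
        have hd : t ≤ hammingDist (U i g) (U i' g) :=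
          hdist _ ((emb i).1 g).2 _ ((emb i').1 g).2 hg'
        refine ⟨s, by omega, 0, fun a ha a' ha' => ?_⟩
        have hdiv : ∀ i v, F i v / B ^ s = (c (U i) v : ℕ) := by
          intro i v
          simp only [F]
          rw [mul_comm, Nat.mul_add_div hpow, Nat.div_eq_of_lt (hF'lt _ _ _ _), add_zero]
        simp only [hdiv, zero_mul, zero_add]
        refine hd.trans ?_
        refine Finset.card_le_card_of_injOn
          (fun p => ((e.symm (g, p, if U i g p then (⟨a', ha'⟩, ⟨a, ha⟩) else
            (⟨a, ha⟩, ⟨a', ha'⟩)) : V) : κ)) ?_ ?_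
        · intro p hp
          have hp' : U i g p ≠ U i' g p := by simpa using hp
          rw [Finset.mem_coe, Finset.mem_filter]
          refine ⟨Subtype.coe_prop _, ?_, ?_⟩
          · rw [hc _ _ (Subtype.coe_prop _)]
            simp only [Subtype.coe_eta, Equiv.apply_symm_apply]
            cases h1 : U i g p <;> simp [dig]
          · rw [hc _ _ (Subtype.coe_prop _)]
            simp only [Subtype.coe_eta, Equiv.apply_symm_apply]
            cases h1 : U i g p <;> cases h2 : U i' g p <;> simp_all [dig]
        · intro p _ p' _ hpp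
          have h1 := Subtype.ext hpp
          have h2 := e.symm.injective h1
          exact (Prod.ext_iff.1 (Prod.ext_iff.1 h2).2).1

end Pool.Agent.Lib.MP_865e4a_co
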