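import Mathlib
import Pool.Agent.Lib.MP_865e4a_co.Defs
import Pool.Agent.Lib.MP_865e4a_co.Family
import Pool.Agent.Lib.MP_865e4a_co.Coloring

/-!
# The semisaturating graph
-/

namespace Pool.Agent.Lib.MP_865e4a_co

open Sum

/-- Ranks of the elements of a finite type according to a real function. -/
lemma exists_rank {α : Type} [Fintype α] (f : α → ℝ) : ∃ D : α → ℕ,
    (∀ a, D a < Fintype.card α) ∧ Function.Injective D ∧ ∀ a b, f a < f b → D a < D b := by
  classical
  let e := Fintype.equivFin α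
  let L : α → ℝ ×ₗ Fin (Fintype.card α) := fun a => toLex (f a, e a)
  have hLinj : Function.Injective L := by
    intro a b h
    have h1 : (f a, e a) = (f b, e b) := toLex.injective h
    exact e.injective (Prod.ext_iff.1 h1).2
  let D : α → ℕ := fun a => (Finset.univ.filter fun b => L b < L a).card
  have hmono : ∀ a b, L a < L b → D a < D b := by
    intro a b h
    refine Finset.card_lt_card ?_
    rw [Finset.ssubset_iff_of_subset]
    · refine ⟨a, by simpa using h, by simp⟩
    · intro c hc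
      rw [Finset.mem_filter] at hc ⊢
      exact ⟨hc.1, hc.2.trans h⟩
  refine ⟨D, fun a => ?_, fun a b h => ?_, fun a b h => hmono a b ?_⟩
  · rw [← Finset.card_univ]
    refine Finset.card_lt_card ?_
    rw [Finset.ssubset_iff_of_subset (Finset.filter_subset _ _)]
    exact ⟨a, Finset.mem_univ _, by simp⟩
  · by_contra hab
    rcases lt_or_gt_of_ne (fun h' => hab (hLinj h')) with h1 | h1
    · exact absurd h (hmono a b h1).ne
    · exact absurd h (hmono b a h1).ne'
  · exact Prod.Lex.toLex_lt_toLex.2 (Or.inl h)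

/-- Between two separated functions, every order pattern on `Fin g` can be found. -/
theorem exists_pattern {B s m t g k : ℕ} (hB : 0 < B) (hm : 0 < m) (ht : need (B ^ s) m g ≤ t)
    (ht0 : 0 < t) {θ : Sym2 (Fin k) → Fin (B ^ s)} (hθ : Rich k (B ^ s) m θ)
    {f f' : Fin k → ℕ} (hf : ∀ v, f v < B ^ s) (hsep : Sep B s t Finset.univ f f')
    {D : Sym2 (Fin g) → ℕ} (hD : ∀ e, D e < B) (hDinj : Function.Injective D) (a b : Fin g) :
    ∃ (j w : ℕ) (v : Fin g → Fin k), Function.Injective v ∧
      (∀ c, f (v c) / B ^ j = w * B + D s(a, c)) ∧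
      (∀ c, f' (v c) / B ^ j = w * B + D s(b, c)) ∧
      ∀ c d, c ≠ d → (θ s(v c, v d) : ℕ) / B ^ j = w * B + D s(c, d) := by
  classical
  obtain ⟨j, hj, w, hw⟩ := hsep
  have hpj : 0 < B ^ j := pow_pos hB j
  let U : Fin g → Finset (Fin k) := fun c =>
    Finset.univ.filter fun v => f v / B ^ j = w * B + D s(a, c) ∧ f' v / B ^ j = w * B + D s(b, c)
  have hdisj : ∀ c d, c ≠ d → Disjoint (U c) (U d) := by
    intro c d hcd
    rw [Finset.disjoint_left]
    intro v hv hv'
    simp only [U, Finset.mem_filter, Finset.mem_univ, true_and] at hv hv'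
    have h1 : D s(a, c) = D s(a, d) := by omega
    have h2 := hDinj h1
    rw [Sym2.congr_right] at h2
    exact hcd h2
  have hcard : ∀ c, need (B ^ s) m g ≤ (U c).card := fun c =>
    ht.trans (hw _ (hD s(a, c)) _ (hD s(b, c)))
  have hτ : ∀ e, (w * B + D e) * B ^ j < B ^ s := by
    intro e
    have h1 : 0 < (Finset.univ.filter fun v => f v / B ^ j = w * B + D e ∧
        f' v / B ^ j = w * B + D e).card := lt_of_lt_of_le ht0 (hw _ (hD e) _ (hD e))
    obtain ⟨v, hv⟩ := Finset.card_pos.1 h1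
    rw [Finset.mem_filter] at hv
    calc (w * B + D e) * B ^ j = f v / B ^ j * B ^ j := by rw [hv.2.1]
      _ ≤ f v := Nat.div_mul_le_self _ _
      _ < B ^ s := hf v
  obtain ⟨v, hvU, hvcol⟩ := exists_transversal (pow_pos hB s) hm hθ g U hdisj hcard
    (fun c d => ⟨(w * B + D s(c, d)) * B ^ j, hτ _⟩)
  have hmem : ∀ c, f (v c) / B ^ j = w * B + D s(a, c) ∧ f' (v c) / B ^ j = w * B + D s(b, c) := by
    intro c
    simpa [U] using hvU c
  refine ⟨j, w, v, ?_, fun c => (hmem c).1, fun c => (hmem c).2, ?_⟩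
  · intro c d hcd
    by_contra hne
    exact Finset.disjoint_left.1 (hdisj c d hne) (hvU c) (hcd ▸ hvU d)
  · intro c d hcd
    rcases lt_or_gt_of_ne hcd with h | h
    · rw [hvcol c d h]
      exact Nat.mul_div_cancel _ hpj
    · rw [Sym2.eq_swap, hvcol d c h, Sym2.eq_swap (a := c)]
      exact Nat.mul_div_cancel _ hpj

section Graph

variable {k : ℕ} {O : Type}

/-- The primary keys of the edge order. -/
def key (θ : Sym2 (Fin k) → ℕ) (F : O → Fin k → ℕ) (X : ℕ) :
    (Bool × Fin k) ⊕ O → (Bool × Fin k) ⊕ O → ℕ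
  | inl p, inl q => if p.1 = q.1 then (if p.1 then X else 0) + θ s(p.2, q.2) else 0
  | inl p, inr x => (if p.1 then X else 0) + F x p.2
  | inr x, inl p => (if p.1 then X else 0) + F x p.2
  | inr _, inr _ => 0

lemma key_comm (θ : Sym2 (Fin k) → ℕ) (F : O → Fin k → ℕ) (X : ℕ)
    (u v : (Bool × Fin k) ⊕ O) : key θ F X u v = key θ F X v u := by
  rcases u with p | x <;> rcases v with q | y
  · simp only [key]
    by_cases h : p.1 = q.1
    · rw [if_pos h, if_pos h.symm, h, Sym2.eq_swap]
    · rw [if_neg h, if_neg (fun h' => h h'.symm)]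
  · rfl
  · rfl
  · rfl

/-- The keys as a function on unordered pairs. -/
def keyS (θ : Sym2 (Fin k) → ℕ) (F : O → Fin k → ℕ) (X : ℕ) :
    Sym2 ((Bool × Fin k) ⊕ O) → ℕ :=
  Sym2.lift ⟨key θ F X, key_comm θ F X⟩

/-- The underlying graph: a complete core joined to an independent set. -/
def coreGraph (k : ℕ) (O : Type) : SimpleGraph ((Bool × Fin k) ⊕ O) where
  Adj u v := u ≠ v ∧ (u.isLeft ∨ v.isLeft)
  symm := ⟨fun _ _ h => ⟨h.1.symm, h.2.symm⟩⟩
  loopless := ⟨fun _ h => h.1 rfl⟩

variable [Fintype O]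

/-- The labels. -/
noncomputable def lab (θ : Sym2 (Fin k) → ℕ) (F : O → Fin k → ℕ) (X : ℕ)
    (e : Sym2 ((Bool × Fin k) ⊕ O)) : ℝ :=
  by classical exact
  ((Fintype.card (Sym2 ((Bool × Fin k) ⊕ O)) * keyS θ F X e +
    (Fintype.equivFin (Sym2 ((Bool × Fin k) ⊕ O)) e : ℕ) : ℕ) : ℝ)

lemma lab_lt (θ : Sym2 (Fin k) → ℕ) (F : O → Fin k → ℕ) (X : ℕ)
    {e e' : Sym2 ((Bool × Fin k) ⊕ O)} (h : keyS θ F X e < keyS θ F X e') :
    lab θ F X e < lab θ F X e' := by
  classical
  unfold lab
  rw [Nat.cast_lt]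
  set N := Fintype.card (Sym2 ((Bool × Fin k) ⊕ O))
  have h1 : ((Fintype.equivFin (Sym2 ((Bool × Fin k) ⊕ O)) e : ℕ)) < N := Fin.is_lt _
  calc _ < N * keyS θ F X e + N := Nat.add_lt_add_left h1 _
    _ = N * (keyS θ F X e + 1) := by ring
    _ ≤ N * keyS θ F X e' := Nat.mul_le_mul_left _ h
    _ ≤ _ := Nat.le_add_right _ _

lemma lab_injective (θ : Sym2 (Fin k) → ℕ) (F : O → Fin k → ℕ) (X : ℕ) :
    Function.Injective (lab θ F X : Sym2 ((Bool × Fin k) ⊕ O) → ℝ) := by
  classical
  intro e e' h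
  rcases lt_trichotomy (keyS θ F X e) (keyS θ F X e') with h1 | h1 | h1
  · exact absurd h (lab_lt θ F X h1).ne
  · unfold lab at h
    rw [Nat.cast_inj, h1] at h
    exact (Fintype.equivFin _).injective (Fin.ext (by omega))
  · exact absurd h (lab_lt θ F X h1).ne'

/-- The edge-ordered graph of the construction. -/
noncomputable def coreEOG (θ : Sym2 (Fin k) → ℕ) (F : O → Fin k → ℕ) (X : ℕ) :
    EdgeOrderedGraph ((Bool × Fin k) ⊕ O) where
  graph := coreGraph k O
  label := lab θ F X
  label_injOn := (lab_injective θ F X).injOn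

lemma ncard_edgeSet_core (n : ℕ) (hn : Fintype.card ((Bool × Fin k) ⊕ O) = n) :
    (coreGraph k O).edgeSet.ncard ≤ 2 * k * n := by
  classical
  let S : Finset (Sym2 ((Bool × Fin k) ⊕ O)) :=
    (Finset.univ : Finset ((Bool × Fin k) × ((Bool × Fin k) ⊕ O))).image fun z => s(inl z.1, z.2)
  have hsub : (coreGraph k O).edgeSet ⊆ (S : Set _) := by
    intro e
    induction e using Sym2.ind with
    | _ u v =>
      intro he
      rw [SimpleGraph.mem_edgeSet] at he
      obtain ⟨-, h⟩ := he
      rw [Finset.mem_coe, Finset.mem_image]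
      rcases h with h | h
      · obtain ⟨p, hp⟩ := Sum.isLeft_iff.1 h
        exact ⟨(p, v), Finset.mem_univ _, by rw [hp]⟩
      · obtain ⟨p, hp⟩ := Sum.isLeft_iff.1 h
        exact ⟨(p, u), Finset.mem_univ _, by rw [hp, Sym2.eq_swap]⟩
  calc (coreGraph k O).edgeSet.ncard ≤ (S : Set _).ncard :=
        Set.ncard_le_ncard hsub (Finset.finite_toSet S)
    _ = S.card := Set.ncard_coe_finset S
    _ ≤ _ := Finset.card_image_le
    _ = 2 * k * n := by
        rw [Finset.card_univ, Fintype.card_prod, hn, Fintype.card_prod, Fintype.card_bool,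
          Fintype.card_fin]

/-- The vertex map of the copies. -/
def cmap {g : ℕ} (z : Bool) (x y : O) (a b : Fin g) (v : Fin g → Fin k) (c : Fin g) :
    (Bool × Fin k) ⊕ O :=
  if c = a then inr x else if c = b then inr y else inl (z, v c)

omit [Fintype O] in
lemma cmap_injective {g : ℕ} (z : Bool) {x y : O} (hxy : x ≠ y) (a b : Fin g)
    {v : Fin g → Fin k} (hv : Function.Injective v) :
    Function.Injective (cmap z x y a b v) := by
  intro c d h
  unfold cmap at h
  split_ifs at h with h1 h2 h3 h4 h5 h6 h7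
  · rw [h1, h2]
  · exact absurd (inr.inj h) hxy
  · exact absurd (inr.inj h).symm hxy
  · rw [h4, h6]
  · have h8 := (Prod.ext_iff.1 (inl.inj h)).2
    exact hv h8

theorem copy_of {g B j w X : ℕ} {G : EdgeOrderedGraph (Fin g)} {D : Sym2 (Fin g) → ℕ}
    (hD : ∀ e e', G.label e < G.label e' → D e < D e')
    {θ : Sym2 (Fin k) → ℕ} {F : O → Fin k → ℕ} (hθX : ∀ e, θ e < X) (hFX : ∀ x i, F x i < X)
    {x y : O} (hxy : x ≠ y) {a b : Fin g} (hab : G.graph.Adj a b) {v : Fin g → Fin k}
    (hv : Function.Injective v)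
    (h1 : ∀ c, F x (v c) / B ^ j = w * B + D s(a, c))
    (h2 : ∀ c, F y (v c) / B ^ j = w * B + D s(b, c))
    (h3 : ∀ c d, c ≠ d → θ s(v c, v d) / B ^ j = w * B + D s(c, d))
    (z : Bool) (t : ℝ) (ht : ∀ e ∈ (coreEOG θ F X).graph.edgeSet, (coreEOG θ F X).label e ≠ t)
    (hpos : (z = true ∧ (∀ e ∈ G.graph.edgeSet, e ≠ s(a, b) → G.label s(a, b) < G.label e) ∧
        ∀ e, X ≤ keyS θ F X e → t < lab θ F X e) ∨
      (z = false ∧ (∀ e ∈ G.graph.edgeSet, e ≠ s(a, b) → G.label e < G.label s(a, b)) ∧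
        ∀ e, keyS θ F X e < X → lab θ F X e < t)) :
    IsCopy G ((coreEOG θ F X).addEdge (inr x) (inr y) t ht) (cmap z x y a b v) := by
  classical
  have hne : a ≠ b := G.graph.ne_of_adj hab
  have hinj := cmap_injective (k := k) z hxy a b hv
  have hφa : cmap z x y a b v a = (inr x : (Bool × Fin k) ⊕ O) := by simp [cmap]
  have hφb : cmap z x y a b v b = (inr y : (Bool × Fin k) ⊕ O) := by simp [cmap, hne.symm]
  have hφ : ∀ c, c ≠ a → c ≠ b → cmap z x y a b v c = (inl (z, v c) : (Bool × Fin k) ⊕ O) := by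
    intro c hca hcb
    simp [cmap, hca, hcb]
  -- the key of an edge other than `ab`
  have hkey : ∀ e ∈ G.graph.edgeSet, e ≠ s(a, b) → ∃ val, val < X ∧
      keyS θ F X (e.map (cmap z x y a b v)) = (if z then X else 0) + val ∧
      val / B ^ j = w * B + D e := by
    intro e
    induction e using Sym2.ind with
    | _ c d =>
      intro he hcd
      rw [SimpleGraph.mem_edgeSet] at he
      have hcd' : c ≠ d := G.graph.ne_of_adj he
      rw [Sym2.map_mk]
      by_cases hca : c = a
      · subst hca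
        have hdb : d ≠ b := fun h => hcd (by rw [h])
        rw [hφa, hφ d hcd'.symm hdb]
        exact ⟨F x (v d), hFX _ _, rfl, h1 d⟩
      · by_cases hcb : c = b
        · subst hcb
          have hda : d ≠ a := fun h => hcd (by rw [h, Sym2.eq_swap])
          rw [hφb, hφ d hda hcd'.symm]
          exact ⟨F y (v d), hFX _ _, rfl, h2 d⟩
        · by_cases hda : d = a
          · subst hda
            rw [hφa, hφ c hca hcb]
            refine ⟨F x (v c), hFX _ _, rfl, ?_⟩
            rw [h1 c, Sym2.eq_swap]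
          · by_cases hdb : d = b
            · subst hdb
              rw [hφb, hφ c hca hcb]
              refine ⟨F y (v c), hFX _ _, rfl, ?_⟩
              rw [h2 c, Sym2.eq_swap]
            · rw [hφ c hca hcb, hφ d hda hdb]
              refine ⟨θ s(v c, v d), hθX _, ?_, h3 c d hcd'⟩
              simp [keyS, key]
  -- labels in the new graph
  have hmap_ab : Sym2.map (cmap z x y a b v) s(a, b) =
      (s(inr x, inr y) : Sym2 ((Bool × Fin k) ⊕ O)) := by
    rw [Sym2.map_mk, hφa, hφb]
  have hlab_ab : ((coreEOG θ F X).addEdge (inr x) (inr y) t ht).label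
      (Sym2.map (cmap z x y a b v) s(a, b)) = t := by
    rw [hmap_ab]
    simp [EdgeOrderedGraph.addEdge]
  have hlab : ∀ e, e ≠ s(a, b) → ((coreEOG θ F X).addEdge (inr x) (inr y) t ht).label
      (Sym2.map (cmap z x y a b v) e) = lab θ F X (Sym2.map (cmap z x y a b v) e) := by
    intro e he
    have h4 : Sym2.map (cmap z x y a b v) e ≠ (s(inr x, inr y) : Sym2 ((Bool × Fin k) ⊕ O)) := by
      intro h
      rw [← hmap_ab] at h
      exact he (Sym2.map.injective hinj h)
    simp only [EdgeOrderedGraph.addEdge]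
    rw [if_neg h4]
    rfl
  -- strict monotonicity
  have hstrict : ∀ e ∈ G.graph.edgeSet, ∀ e' ∈ G.graph.edgeSet, G.label e < G.label e' →
      ((coreEOG θ F X).addEdge (inr x) (inr y) t ht).label (Sym2.map (cmap z x y a b v) e) <
      ((coreEOG θ F X).addEdge (inr x) (inr y) t ht).label
        (Sym2.map (cmap z x y a b v) e') := by
    intro e he e' he' hlt
    by_cases hea : e = s(a, b)
    · have he'a : e' ≠ s(a, b) := by
        intro h
        rw [hea, h] at hlt
        exact lt_irrefl _ hlt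
      rw [hlab e' he'a, hea, hlab_ab]
      rcases hpos with ⟨hz, -, hp⟩ | ⟨-, hmax, -⟩
      · refine hp _ ?_
        obtain ⟨val, -, hval, -⟩ := hkey e' he' he'a
        rw [hval, hz]
        simp
      · exfalso
        rw [hea] at hlt
        exact lt_asymm hlt (hmax e' he' he'a)
    · by_cases he'a : e' = s(a, b)
      · rw [hlab e hea, he'a, hlab_ab]
        rcases hpos with ⟨-, hmin, -⟩ | ⟨hz, -, hp⟩
        · exfalso
          rw [he'a] at hlt
          exact lt_asymm hlt (hmin e he hea)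
        · refine hp _ ?_
          obtain ⟨val, hvX, hval, -⟩ := hkey e he hea
          rw [hval, hz]
          simpa using hvX
      · rw [hlab e hea, hlab e' he'a]
        refine lab_lt θ F X ?_
        obtain ⟨val, -, hval, hdiv⟩ := hkey e he hea
        obtain ⟨val', -, hval', hdiv'⟩ := hkey e' he' he'a
        rw [hval, hval']
        have h5 : val / B ^ j < val' / B ^ j := by
          rw [hdiv, hdiv']
          exact Nat.add_lt_add_left (hD e e' hlt) _
        have h6 : val < val' := by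
          by_contra hcon
          push Not at hcon
          exact absurd (Nat.div_le_div_right (c := B ^ j) hcon) (by omega)
        omega
  refine ⟨hinj, ?_, ?_⟩
  · intro c d hcd
    have hcd' : c ≠ d := G.graph.ne_of_adj hcd
    simp only [EdgeOrderedGraph.addEdge, SimpleGraph.sup_adj]
    by_cases hc : c = a ∨ c = b
    · by_cases hd : d = a ∨ d = b
      · right
        rw [SimpleGraph.edge_adj]
        rcases hc with rfl | rfl <;> rcases hd with rfl | rfl
        · exact absurd rfl hcd'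
        · rw [hφa, hφb]
          exact ⟨Or.inl ⟨rfl, rfl⟩, fun h => hxy (inr.inj h)⟩
        · rw [hφa, hφb]
          exact ⟨Or.inr ⟨rfl, rfl⟩, fun h => hxy (inr.inj h).symm⟩
        · exact absurd rfl hcd'
      · left
        push Not at hd
        refine ⟨fun h => hcd' (hinj h), Or.inr ?_⟩
        rw [hφ d hd.1 hd.2]
        rfl
    · left
      push Not at hc
      refine ⟨fun h => hcd' (hinj h), Or.inl ?_⟩
      rw [hφ c hc.1 hc.2]
      rfl
  · intro e he e' he'
    refine ⟨hstrict e he e' he', fun h => ?_⟩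
    rcases lt_trichotomy (G.label e) (G.label e') with h4 | h4 | h4
    · exact h4
    · have := G.label_injOn he he' h4
      rw [this] at h
      exact absurd h (lt_irrefl _)
    · exact absurd h (lt_asymm (hstrict e' he' e he h4))

/-- The construction e-semisaturates `G`. -/
theorem semisaturates {g B s m t : ℕ} (G : EdgeOrderedGraph (Fin g)) (hG : G.graph ≠ ⊥)
    (hB : 0 < B) (hgB : Fintype.card (Sym2 (Fin g)) ≤ B) (hm : 0 < m)
    (ht : need (B ^ s) m g ≤ t) (ht0 : 0 < t)
    {θ : Sym2 (Fin k) → Fin (B ^ s)} (hθ : Rich k (B ^ s) m θ)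
    {F : O → Fin k → ℕ} (hF : ∀ x i, F x i < B ^ s)
    (hsep : ∀ x y, x ≠ y → Sep B s t Finset.univ (F x) (F y)) :
    ESemisaturates (coreEOG (fun e => (θ e : ℕ)) F (B ^ s)) G := by
  classical
  obtain ⟨D, hDlt, hDinj, hDmono⟩ := exists_rank G.label
  have hDB : ∀ e, D e < B := fun e => (hDlt e).trans_le hgB
  intro u v huv hnadj τ hτ
  -- the two endpoints are outside the core
  obtain ⟨x, rfl⟩ : ∃ x, u = inr x := by
    rcases u with p | x
    · exact absurd ⟨huv, Or.inl rfl⟩ hnadj
    · exact ⟨x, rfl⟩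
  obtain ⟨y, rfl⟩ : ∃ y, v = inr y := by
    rcases v with p | y
    · exact absurd ⟨huv, Or.inr rfl⟩ hnadj
    · exact ⟨y, rfl⟩
  have hxy : x ≠ y := fun h => huv (by rw [h])
  -- the extreme edges of `G`
  have hne : (G.graph.edgeSet).Nonempty := SimpleGraph.edgeSet_nonempty.2 hG
  have hfin : (G.graph.edgeSet).Finite := Set.toFinite _
  by_cases hcase : ∃ e₂, B ^ s ≤ keyS (fun e => (θ e : ℕ)) F (B ^ s) e₂ ∧
      lab (fun e => (θ e : ℕ)) F (B ^ s) e₂ ≤ τ
  · obtain ⟨e₂, he₂, hle⟩ := hcase
    obtain ⟨e₀, he₀, hmax⟩ := Set.exists_max_image _ G.label hfin hne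
    revert he₀ hmax
    induction e₀ using Sym2.ind with
    | _ a b =>
      intro hab hmax
      rw [SimpleGraph.mem_edgeSet] at hab
      obtain ⟨j, w, v, hv, h1, h2, h3⟩ := exists_pattern hB hm ht ht0 hθ (hF x)
        (hsep x y hxy) hDB hDinj a b
      refine ⟨cmap false x y a b v, copy_of hDmono (fun e => (θ e).2) hF hxy hab hv h1 h2 h3
        false τ hτ (Or.inr ⟨rfl, ?_, ?_⟩), a, b, hab, ?_⟩
      · intro e he hne'
        refine lt_of_le_of_ne (hmax e he) fun h => hne' ?_
        exact G.label_injOn he ((SimpleGraph.mem_edgeSet _).2 hab) h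
      · intro e he
        exact (lab_lt _ F _ (he.trans_le he₂)).trans_le hle
      · simp [cmap, (G.graph.ne_of_adj hab).symm]
  · push Not at hcase
    obtain ⟨e₀, he₀, hmin⟩ := Set.exists_min_image _ G.label hfin hne
    revert he₀ hmin
    induction e₀ using Sym2.ind with
    | _ a b =>
      intro hab hmin
      rw [SimpleGraph.mem_edgeSet] at hab
      obtain ⟨j, w, v, hv, h1, h2, h3⟩ := exists_pattern hB hm ht ht0 hθ (hF x)
        (hsep x y hxy) hDB hDinj a b
      refine ⟨cmap true x y a b v, copy_of hDmono (fun e => (θ e).2) hF hxy hab hv h1 h2 h3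
        true τ hτ (Or.inl ⟨rfl, ?_, ?_⟩), a, b, hab, ?_⟩
      · intro e he hne'
        refine lt_of_le_of_ne (hmin e he) fun h => hne' ?_
        exact (G.label_injOn ((SimpleGraph.mem_edgeSet _).2 hab) he h).symm
      · exact fun e he => hcase e he
      · simp [cmap, (G.graph.ne_of_adj hab).symm]

end Graph

end Pool.Agent.Lib.MP_865e4a_co
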