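import Mathlib
import Pool.Agent.Lib.MP_865e4a_co.Defs
import Pool.Agent.Lib.MP_865e4a_co.Construct

/-!
# The semisaturation function is always `o(n log n)`
-/

namespace Pool.Agent.Lib.MP_865e4a_co

open Filter Asymptotics

/-- Transport of a semisaturating graph to `Fin n`. -/
theorem ssat_le {V : Type} [Fintype V] {n : ℕ} (hn : Fintype.card V = n) {W : Type}
    {G : EdgeOrderedGraph W} {H : EdgeOrderedGraph V} (h : ESemisaturates H G) :
    ssat n G ≤ H.graph.edgeSet.ncard := by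
  classical
  obtain ⟨e⟩ : Nonempty (Fin n ≃ V) :=
    ⟨(Fintype.equivFinOfCardEq hn).symm⟩
  have hmapinj : Function.Injective (Sym2.map e) := Sym2.map.injective e.injective
  have hmemiff : ∀ x : Sym2 (Fin n), x ∈ (H.graph.comap e).edgeSet ↔
      x.map e ∈ H.graph.edgeSet := by
    intro x
    induction x using Sym2.ind with
    | _ a b => simp
  let H' : EdgeOrderedGraph (Fin n) :=
    { graph := H.graph.comap e
      label := fun x => H.label (x.map e)
      label_injOn := by
        intro x hx y hy hxy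
        exact hmapinj (H.label_injOn ((hmemiff x).1 hx) ((hmemiff y).1 hy) hxy) }
  have hmm : ∀ x : Sym2 V, (x.map e.symm).map e = x := by
    intro x
    rw [Sym2.map_map]
    simp
  have hsemi : ESemisaturates H' G := by
    intro u v huv hnadj t ht
    have ht' : ∀ x ∈ H.graph.edgeSet, H.label x ≠ t := by
      intro x hx
      have h1 := ht (x.map e.symm) ((hmemiff _).2 (by rw [hmm]; exact hx))
      simpa only [H', hmm] using h1
    obtain ⟨φ, ⟨hφ, hadj, hlab⟩, a, b, hab, hs⟩ := h (e u) (e v) (e.injective.ne huv) hnadj t ht'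
    have hcomp : ∀ x : Sym2 W, (x.map (e.symm ∘ φ)).map e = x.map φ := by
      intro x
      rw [Sym2.map_map]
      congr 1
      funext c
      simp
    have hiff : ∀ x : Sym2 W, x.map (e.symm ∘ φ) = s(u, v) ↔ x.map φ = s(e u, e v) := by
      intro x
      rw [← hmapinj.eq_iff, hcomp, Sym2.map_mk]
    have hlabel : ∀ x : Sym2 W, (H'.addEdge u v t ht).label (x.map (e.symm ∘ φ)) =
        (H.addEdge (e u) (e v) t ht').label (x.map φ) := by
      intro x
      simp only [EdgeOrderedGraph.addEdge]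
      by_cases h1 : x.map φ = s(e u, e v)
      · rw [if_pos ((hiff x).2 h1), if_pos h1]
      · rw [if_neg (fun h2 => h1 ((hiff x).1 h2)), if_neg h1]
        simp only [H', hcomp]
    refine ⟨e.symm ∘ φ, ⟨e.symm.injective.comp hφ, ?_, ?_⟩, a, b, hab, ?_⟩
    · intro c d hcd
      have h1 := hadj c d hcd
      simp only [EdgeOrderedGraph.addEdge, SimpleGraph.sup_adj, SimpleGraph.edge_adj] at h1 ⊢
      rcases h1 with h1 | ⟨h1, h2⟩
      · left
        simpa [H'] using h1
      · right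
        refine ⟨?_, fun h3 => h2 (e.symm.injective h3)⟩
        rcases h1 with ⟨h3, h4⟩ | ⟨h3, h4⟩
        · left
          simp [h3, h4]
        · right
          simp [h3, h4]
    · intro x hx y hy
      rw [hlabel, hlabel]
      exact hlab x hx y hy
    · have h2 := (hiff s(a, b)).2 (by rw [Sym2.map_mk]; exact hs)
      rw [Sym2.map_mk] at h2
      exact h2
  have h1 : ssat n G ≤ H'.graph.edgeSet.ncard := Nat.sInf_le ⟨H', hsemi, rfl⟩
  refine h1.trans ?_
  rw [← Set.ncard_image_of_injective _ hmapinj]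
  refine Set.ncard_le_ncard ?_ (Set.toFinite _)
  rintro _ ⟨x, hx, rfl⟩
  exact (hmemiff x).1 hx

/-- The bound for given parameters. -/
theorem ssat_le_of_params {g B s m n : ℕ} (G : EdgeOrderedGraph (Fin g)) (hG : G.graph ≠ ⊥)
    (hB : 0 < B) (hgB : Fintype.card (Sym2 (Fin g)) ≤ B) (hm : 0 < m)
    (hrich : (4 : ℝ) ^ (B ^ (s + 1) * (8 * need (B ^ s) m g)) * ((B ^ s : ℕ) : ℝ) *
      (1 - 1 / (4 * ((B ^ s : ℕ) : ℝ))) ^ (m * m) < 1)
    (hkn : 2 * (B ^ (s + 1) * (8 * need (B ^ s) m g)) ≤ n)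
    (hn : n ≤ 8 ^ (need (B ^ s) m g * expo B s)) :
    ssat n G ≤ 2 * (B ^ (s + 1) * (8 * need (B ^ s) m g)) * n := by
  classical
  set t := need (B ^ s) m g with htdef
  set k := B ^ (s + 1) * (8 * t) with hk
  have hBs : 0 < B ^ s := pow_pos hB s
  have ht0 : 0 < t := by
    rw [htdef, need]
    positivity
  obtain ⟨θ, hθ⟩ := exists_rich (k := k) hBs m hrich
  obtain ⟨F, hF, hsep⟩ := exists_family B t hB s (Finset.univ : Finset (Fin k))
    (by rw [Finset.card_univ, Fintype.card_fin])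
  have hle : Fintype.card (Fin (n - 2 * k)) ≤ Fintype.card (Fin (8 ^ (t * expo B s))) := by
    rw [Fintype.card_fin, Fintype.card_fin]
    omega
  obtain ⟨ι⟩ := Function.Embedding.nonempty_of_card_le hle
  have hcard : Fintype.card ((Bool × Fin k) ⊕ Fin (n - 2 * k)) = n := by
    rw [Fintype.card_sum, Fintype.card_prod, Fintype.card_bool, Fintype.card_fin,
      Fintype.card_fin]
    omega
  have hsemi := semisaturates (O := Fin (n - 2 * k)) G hG hB hgB hm le_rfl ht0 hθ
    (F := fun x => F (ι x)) (fun x i => hF _ _)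
    (fun x y hxy => hsep _ _ (fun h => hxy (ι.injective h)))
  exact (ssat_le hcard hsemi).trans (ncard_edgeSet_core n hcard)

lemma need_eq (Q m g : ℕ) : need Q m g = m * need Q 1 g := by
  unfold need
  ring

/-- The numerical condition for rich colourings holds for large `m`. -/
lemma eventually_rich (κ Q : ℕ) (hQ : 0 < Q) : ∀ᶠ m : ℕ in atTop,
    (4 : ℝ) ^ (κ * m) * (Q : ℝ) * (1 - 1 / (4 * (Q : ℝ))) ^ (m * m) < 1 := by
  have hQ1 : (1 : ℝ) ≤ Q := by exact_mod_cast hQ
  set ρ : ℝ := 1 - 1 / (4 * (Q : ℝ)) with hρ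
  have hρ0 : 0 ≤ ρ := by
    have : 1 / (4 * (Q : ℝ)) ≤ 1 := by
      rw [div_le_one (by positivity)]; linarith
    linarith
  have hρ1 : ρ < 1 := by
    have : 0 < 1 / (4 * (Q : ℝ)) := by positivity
    linarith
  have h1 : Tendsto (fun m : ℕ => (4 : ℝ) ^ κ * Q * ρ ^ m) atTop (nhds 0) := by
    have := (tendsto_pow_atTop_nhds_zero_of_lt_one hρ0 hρ1).const_mul ((4 : ℝ) ^ κ * Q)
    simpa using this
  filter_upwards [h1.eventually (gt_mem_nhds (show (0 : ℝ) < 1 / 2 by norm_num)),
    eventually_ge_atTop 1] with m hm hm1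
  have ha0 : 0 ≤ (4 : ℝ) ^ κ * ρ ^ m := by positivity
  have haQ : (4 : ℝ) ^ κ * ρ ^ m * Q < 1 / 2 := by
    calc (4 : ℝ) ^ κ * ρ ^ m * Q = (4 : ℝ) ^ κ * Q * ρ ^ m := by ring
      _ < 1 / 2 := hm
  have ha1 : (4 : ℝ) ^ κ * ρ ^ m ≤ 1 := by nlinarith
  obtain ⟨m', rfl⟩ : ∃ m', m = m' + 1 := ⟨m - 1, by omega⟩
  calc (4 : ℝ) ^ (κ * (m' + 1)) * (Q : ℝ) * ρ ^ ((m' + 1) * (m' + 1))
      = ((4 : ℝ) ^ κ * ρ ^ (m' + 1)) ^ (m' + 1) * Q := by
        rw [mul_pow, ← pow_mul, ← pow_mul]; ring
    _ = ((4 : ℝ) ^ κ * ρ ^ (m' + 1)) ^ m' * ((4 : ℝ) ^ κ * ρ ^ (m' + 1) * Q) := by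
        rw [pow_succ]; ring
    _ ≤ 1 * ((4 : ℝ) ^ κ * ρ ^ (m' + 1) * Q) := by
        refine mul_le_mul_of_nonneg_right (pow_le_one₀ ha0 ha1) (by positivity)
    _ < 1 := by linarith

/-- For every edge-ordered graph `G` with at least one edge, `ssat_e(n, G) = o(n log n)`. -/
theorem isLittleO_ssat {g : ℕ} (G : EdgeOrderedGraph (Fin g)) (hG : G.graph ≠ ⊥) :
    (fun n : ℕ => (ssat n G : ℝ)) =o[atTop] fun n : ℕ => (n : ℝ) * Real.log n := by
  rw [isLittleO_iff]
  intro ε hε
  set B : ℕ := Fintype.card (Sym2 (Fin g)) + 1 with hBdef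
  have hB : 0 < B := by omega
  have hBr : (0 : ℝ) < B := by exact_mod_cast hB
  have hlog8 : 0 < Real.log 8 := Real.log_pos (by norm_num)
  obtain ⟨s, hs⟩ := exists_nat_gt (32 * (B : ℝ) ^ 2 / (ε * Real.log 8))
  have hspos : (0 : ℝ) < s := lt_of_le_of_lt (by positivity) hs
  have hs0 : 0 < s := by exact_mod_cast hspos
  set T : ℕ := need (B ^ s) 1 g with hT
  have hBs : 0 < B ^ s := pow_pos hB s
  have hT0 : 0 < T := by
    rw [hT, need]; positivity
  have hTr : (0 : ℝ) < T := by exact_mod_cast hT0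
  set E : ℕ := expo B s with hE
  have hBE : B * E = s * B ^ s := mul_expo B s
  have hE0 : 0 < E := by
    have : 0 < B * E := by rw [hBE]; positivity
    exact Nat.pos_of_mul_pos_left this
  have hEr : (0 : ℝ) < E := by exact_mod_cast hE0
  set κ : ℕ := B ^ (s + 1) * (8 * T) with hκ
  obtain ⟨m₀, hm₀⟩ := eventually_atTop.1 (eventually_rich κ (B ^ s) hBs)
  set m₁ : ℕ := m₀ + 1 with hm₁
  -- the constant term
  set C : ℝ := 2 * κ * (m₁ + 1) with hC
  -- the choice of `m`
  let M : ℕ → ℕ := fun n => m₁ + ⌈Real.log n / (T * E * Real.log 8)⌉₊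
  have hcoef : 2 * (κ : ℝ) / (T * E * Real.log 8) ≤ ε / 2 := by
    rw [div_le_iff₀ (by positivity)]
    have h1 : (B : ℝ) * E = s * (B : ℝ) ^ s := by exact_mod_cast hBE
    have h2 : 32 * (B : ℝ) ^ 2 < s * (ε * Real.log 8) := by
      rwa [div_lt_iff₀ (by positivity)] at hs
    have h3 : (κ : ℝ) = (B : ℝ) ^ (s + 1) * (8 * T) := by rw [hκ]; push_cast; ring
    have h4 : (B : ℝ) * (2 * (κ : ℝ)) ≤ (B : ℝ) * (ε / 2 * (T * E * Real.log 8)) := by
      have h5 : (B : ℝ) * (ε / 2 * (T * E * Real.log 8)) =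
          (T * (B : ℝ) ^ s / 2) * (s * (ε * Real.log 8)) := by
        calc (B : ℝ) * (ε / 2 * (T * E * Real.log 8)) =
            (B * E) * (ε / 2 * (T * Real.log 8)) := by ring
          _ = (T * (B : ℝ) ^ s / 2) * (s * (ε * Real.log 8)) := by rw [h1]; ring
      have h6 : (B : ℝ) * (2 * (κ : ℝ)) = (T * (B : ℝ) ^ s / 2) * (32 * (B : ℝ) ^ 2) := by
        rw [h3, pow_succ]; ring
      rw [h5, h6]
      exact mul_le_mul_of_nonneg_left h2.le (by positivity)
    exact le_of_mul_le_mul_left h4 hBr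
  have hMle : ∀ n : ℕ, 1 ≤ n → (2 * (κ : ℝ)) * M n ≤ C + ε / 2 * Real.log n := by
    intro n hn
    have hlogn : 0 ≤ Real.log n := Real.log_natCast_nonneg n
    have h1 : (⌈Real.log n / (T * E * Real.log 8)⌉₊ : ℝ) ≤
        Real.log n / (T * E * Real.log 8) + 1 :=
      (Nat.ceil_lt_add_one (by positivity)).le
    have h2 : (M n : ℝ) ≤ m₁ + 1 + Real.log n / (T * E * Real.log 8) := by
      simp only [M]; push_cast; linarith
    calc (2 * (κ : ℝ)) * M n ≤ (2 * (κ : ℝ)) *
          (m₁ + 1 + Real.log n / (T * E * Real.log 8)) :=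
          mul_le_mul_of_nonneg_left h2 (by positivity)
      _ = C + (2 * (κ : ℝ) / (T * E * Real.log 8)) * Real.log n := by
          rw [hC]; ring
      _ ≤ C + ε / 2 * Real.log n := by
          have := mul_le_mul_of_nonneg_right hcoef hlogn
          linarith
  have hMn : ∀ n : ℕ, 1 ≤ n → n ≤ 8 ^ (M n * T * E) := by
    intro n hn
    have hnr : (0 : ℝ) < n := by exact_mod_cast hn
    have h1 : Real.log n / (T * E * Real.log 8) ≤ M n := by
      simp only [M]; push_cast
      have := Nat.le_ceil (Real.log n / (T * E * Real.log 8))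
      have h2 : (0 : ℝ) ≤ m₁ := Nat.cast_nonneg _
      linarith
    rw [div_le_iff₀ (by positivity)] at h1
    have h3 : Real.log n ≤ Real.log ((8 : ℝ) ^ (M n * T * E)) := by
      rw [Real.log_pow]; push_cast
      calc Real.log n ≤ M n * (T * E * Real.log 8) := h1
        _ = M n * T * E * Real.log 8 := by ring
    have h4 : (n : ℝ) ≤ (8 : ℝ) ^ (M n * T * E) :=
      (Real.log_le_log_iff hnr (by positivity)).1 h3
    exact_mod_cast h4
  -- asymptotic facts
  have hlog : Tendsto (fun n : ℕ => Real.log n) atTop atTop :=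
    Real.tendsto_log_atTop.comp tendsto_natCast_atTop_atTop
  have hlogo : ∀ᶠ n : ℕ in atTop, C + ε / 2 * Real.log n ≤ n := by
    have h1 : (fun x : ℝ => C + ε / 2 * Real.log x) =o[atTop] (fun x : ℝ => x) := by
      refine IsLittleO.add ?_ ?_
      · exact isLittleO_const_id_atTop C
      · exact (Real.isLittleO_log_id_atTop).const_mul_left _
    have h2 := h1.comp_tendsto (tendsto_natCast_atTop_atTop (R := ℝ))
    have h3 := h2.bound (show (0 : ℝ) < 1 by norm_num)
    filter_upwards [h3] with n hn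
    simp only [Function.comp, one_mul, Real.norm_eq_abs, Nat.abs_cast] at hn
    exact (le_abs_self _).trans hn
  filter_upwards [hlogo, hlog.eventually (eventually_ge_atTop (2 * C / ε)),
    eventually_ge_atTop 1] with n hn1 hn2 hn3
  have hlogn : 0 ≤ Real.log n := Real.log_natCast_nonneg n
  have hMpos : 0 < M n := by simp only [M]; omega
  have hMm : m₀ ≤ M n := by simp only [M]; omega
  have hneedM : need (B ^ s) (M n) g = M n * T := by rw [need_eq]
  have hk : B ^ (s + 1) * (8 * need (B ^ s) (M n) g) = κ * M n := by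
    rw [hneedM, hκ]; ring
  have h2k : (2 * (κ * M n) : ℝ) ≤ n := by
    calc (2 * (κ * M n) : ℝ) = (2 * (κ : ℝ)) * M n := by ring
      _ ≤ C + ε / 2 * Real.log n := hMle n hn3
      _ ≤ n := hn1
  have hfin := ssat_le_of_params (s := s) (m := M n) (n := n) G hG hB (by omega) hMpos
    (by rw [hk]; exact hm₀ (M n) hMm)
    (by rw [hk]; exact_mod_cast h2k)
    (by rw [hneedM]; exact hMn n hn3)
  rw [hk] at hfin
  have hfin' : (ssat n G : ℝ) ≤ 2 * (κ * M n) * n := by exact_mod_cast hfin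
  rw [Real.norm_of_nonneg (Nat.cast_nonneg _), Real.norm_of_nonneg (by positivity)]
  have hnr : (0 : ℝ) ≤ n := Nat.cast_nonneg _
  have h5 : C ≤ ε / 2 * Real.log n := by
    rw [div_le_iff₀ hε] at hn2
    linarith
  calc (ssat n G : ℝ) ≤ 2 * (κ * M n) * n := hfin'
    _ = ((2 * (κ : ℝ)) * M n) * n := by ring
    _ ≤ (C + ε / 2 * Real.log n) * n := mul_le_mul_of_nonneg_right (hMle n hn3) hnr
    _ ≤ (ε * Real.log n) * n := by
        refine mul_le_mul_of_nonneg_right ?_ hnr
        linarith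
    _ = ε * (n * Real.log n) := by ring

/-! ### Graphs without edges -/

/-- Only complete graphs e-semisaturate an edgeless graph. -/
lemma complete_of_semisaturates {n g : ℕ} {G : EdgeOrderedGraph (Fin g)} (hG : G.graph = ⊥)
    {H : EdgeOrderedGraph (Fin n)} (h : ESemisaturates H G) : H.graph = ⊤ := by
  classical
  ext u v
  rw [SimpleGraph.top_adj]
  refine ⟨fun h => H.graph.ne_of_adj h, fun huv => ?_⟩
  by_contra hadj
  have hfin : (H.label '' H.graph.edgeSet).Finite := (Set.toFinite _).image _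
  obtain ⟨t, ht⟩ := hfin.exists_notMem
  obtain ⟨φ, -, a, b, hab, -⟩ := h u v huv hadj t (fun e he h' => ht ⟨e, he, h'⟩)
  rw [hG] at hab
  exact hab

/-- Some graph e-semisaturates `G`. -/
lemma exists_semisaturates {g : ℕ} (n : ℕ) (G : EdgeOrderedGraph (Fin g)) :
    ∃ H : EdgeOrderedGraph (Fin n), ESemisaturates H G := by
  classical
  refine ⟨{ graph := ⊤, label := fun e => ((Fintype.equivFin (Sym2 (Fin n)) e : ℕ) : ℝ),
            label_injOn := ?_ }, ?_⟩
  · intro e _ e' _ h
    exact (Fintype.equivFin _).injective (Fin.ext (Nat.cast_injective h))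
  · intro u v huv hadj
    exact absurd huv (by simpa using hadj)

lemma ssat_of_edgeless {g : ℕ} (n : ℕ) {G : EdgeOrderedGraph (Fin g)} (hG : G.graph = ⊥) :
    ssat n G = n.choose 2 := by
  classical
  obtain ⟨H, hH⟩ := exists_semisaturates n G
  have hmem := Nat.sInf_mem (s := {m : ℕ | ∃ H : EdgeOrderedGraph (Fin n),
    ESemisaturates H G ∧ H.graph.edgeSet.ncard = m}) ⟨_, H, hH, rfl⟩
  obtain ⟨H', hH', hc⟩ := hmem
  have htop := complete_of_semisaturates hG hH'
  change ssat n G = _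
  rw [ssat, ← hc, htop, ← SimpleGraph.coe_edgeFinset, Set.ncard_coe_finset,
    SimpleGraph.card_edgeFinset_top_eq_card_choose_two, Fintype.card_fin]

lemma not_isBigO_choose : ¬ ((fun n : ℕ => ((n.choose 2 : ℕ) : ℝ)) =O[atTop]
    fun n : ℕ => (n : ℝ) * Real.log n) := by
  intro h
  have h1 : (fun n : ℕ => (n : ℝ) * Real.log n) =o[atTop] fun n : ℕ => (n : ℝ) * n := by
    have h2 : (fun n : ℕ => Real.log n) =o[atTop] fun n : ℕ => (n : ℝ) :=
      (Real.isLittleO_log_id_atTop).comp_tendsto (tendsto_natCast_atTop_atTop (R := ℝ))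
    exact (isBigO_refl _ _).mul_isLittleO h2
  have h3 : (fun n : ℕ => (n : ℝ) * n) =O[atTop] fun n : ℕ => ((n.choose 2 : ℕ) : ℝ) := by
    refine IsBigO.of_bound 4 ?_
    filter_upwards [eventually_ge_atTop 2] with n hn
    have hnr : (2 : ℝ) ≤ n := by exact_mod_cast hn
    rw [Nat.cast_choose_two, Real.norm_of_nonneg (by positivity), Real.norm_of_nonneg (by
      have : 0 ≤ (n : ℝ) - 1 := by linarith
      positivity)]
    nlinarith
  have h4 := (h3.trans h).trans_isLittleO h1
  refine isLittleO_irrefl ?_ h4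
  refine Eventually.frequently ?_
  filter_upwards [eventually_ge_atTop 1] with n hn
  have hnr : (1 : ℝ) ≤ n := by exact_mod_cast hn
  positivity

/-- No edge-ordered graph has semisaturation function of order `n log n`. -/
theorem not_isTheta_ssat {g : ℕ} (G : EdgeOrderedGraph (Fin g)) :
    ¬ ((fun n : ℕ => (ssat n G : ℝ)) =Θ[atTop] fun n : ℕ => (n : ℝ) * Real.log n) := by
  intro h
  by_cases hG : G.graph = ⊥
  · refine not_isBigO_choose ?_
    have h1 := h.1
    simpa only [ssat_of_edgeless _ hG] using h1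
  · have h1 := h.2.trans_isLittleO (isLittleO_ssat G hG)
    refine isLittleO_irrefl ?_ h1
    refine Eventually.frequently ?_
    filter_upwards [eventually_ge_atTop 2] with n hn
    have hnr : (2 : ℝ) ≤ n := by exact_mod_cast hn
    have h2 : 0 < Real.log n := Real.log_pos (by linarith)
    positivity

end Pool.Agent.Lib.MP_865e4a_co
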